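import Pool.Agent.Run7.h946.LL.Lim
import Pool.Agent.R409.RA.Loc
import Pool.Agent.N534.EC.Local

/-!
# Elliptic curves over number fields
-/

set_option autoImplicit false

namespace Run7.h946.LL.EC

open NumberField IsDedekindDomain Filter Topology MeasureTheory Asymptotics
open Pool.Agent.R409.RA hiding nm_pos
open Pool.Agent.H341R2.EC (aff red trc)

open scoped Classical

variable {K : Type} [Field K] [NumberField K]

/-- the primes not dividing `6Δ` -/
def Gd (W : WeierstrassCurve (𝓞 K)) (v : HeightOneSpectrum (𝓞 K)) : Prop := 6 * W.Δ ∉ v.asIdeal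

/-- the number `a_v` -/
noncomputable def tr (W : WeierstrassCurve (𝓞 K)) (v : HeightOneSpectrum (𝓞 K)) : ℤ :=
  (Ideal.absNorm v.asIdeal : ℤ) - (aff (red v W) : ℤ)

/-- `√(4 q - a²)` -/
noncomputable def dd (W : WeierstrassCurve (𝓞 K)) (v : HeightOneSpectrum (𝓞 K)) : ℝ :=
  √(4 * (Ideal.absNorm v.asIdeal : ℝ) - (tr W v : ℝ) ^ 2)

/-- the eigenvalues of Frobenius -/
noncomputable def al (W : WeierstrassCurve (𝓞 K)) (v : HeightOneSpectrum (𝓞 K)) (j : Fin 2) : ℂ :=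
  if Gd W v then (if j = 0 then ((tr W v : ℝ) : ℂ) / 2 + (dd W v : ℂ) / 2 * Complex.I
    else ((tr W v : ℝ) : ℂ) / 2 - (dd W v : ℂ) / 2 * Complex.I) else 0

variable {W : WeierstrassCurve (𝓞 K)} {v : HeightOneSpectrum (𝓞 K)}

lemma six (h : Gd W v) : (6 : 𝓞 K) ∉ v.asIdeal := fun h6 => h (Ideal.mul_mem_right _ _ h6)

lemma q_pos (v : HeightOneSpectrum (𝓞 K)) : (0 : ℝ) < Ideal.absNorm v.asIdeal :=
  Pool.Agent.R409.RA.nm_pos v

lemma hasse (h : Gd W v) : (tr W v : ℝ) ^ 2 ≤ 4 * (Ideal.absNorm v.asIdeal : ℝ) := by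
  have h1 := Pool.Agent.N534.EC.trc_hasse (fun _ => W) v (six h)
  have h2 : |(tr W v : ℝ)| ≤ 2 * √(Ideal.absNorm v.asIdeal : ℝ) := h1
  have h3 := pow_le_pow_left₀ (abs_nonneg _) h2 2
  rw [sq_abs, mul_pow, Real.sq_sqrt (q_pos v).le] at h3
  linarith

lemma dd_sq (h : Gd W v) : (dd W v) ^ 2 = 4 * (Ideal.absNorm v.asIdeal : ℝ) - (tr W v : ℝ) ^ 2 := by
  unfold dd
  exact Real.sq_sqrt (by linarith [hasse h])

lemma al_zero (h : Gd W v) :
    al W v 0 = ((tr W v : ℝ) : ℂ) / 2 + (dd W v : ℂ) / 2 * Complex.I := by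
  unfold al
  rw [if_pos h, if_pos rfl]

lemma al_one (h : Gd W v) :
    al W v 1 = ((tr W v : ℝ) : ℂ) / 2 - (dd W v : ℂ) / 2 * Complex.I := by
  unfold al
  rw [if_pos h, if_neg (by decide)]

lemma al_add (h : Gd W v) : al W v 0 + al W v 1 = (tr W v : ℂ) := by
  rw [al_zero h, al_one h]
  push_cast
  ring

lemma al_mul (h : Gd W v) : al W v 0 * al W v 1 = (Ideal.absNorm v.asIdeal : ℂ) := by
  have h1 : ((dd W v : ℝ) : ℂ) ^ 2 = 4 * (Ideal.absNorm v.asIdeal : ℂ) - (tr W v : ℂ) ^ 2 := by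
    have := congrArg (fun x : ℝ => (x : ℂ)) (dd_sq h)
    push_cast at this
    exact this
  rw [al_zero h, al_one h]
  have h2 := Complex.I_sq
  push_cast
  linear_combination (-(dd W v : ℂ) ^ 2 / 4) * h2 + (1 / 4) * h1

lemma al_norm (h : Gd W v) (j : Fin 2) : ‖al W v j‖ = √(Ideal.absNorm v.asIdeal) := by
  have h1 : ∀ e : ℝ, e ^ 2 = (dd W v) ^ 2 →
      ‖((tr W v : ℝ) : ℂ) / 2 + (e : ℂ) / 2 * Complex.I‖ = √(Ideal.absNorm v.asIdeal) := by
    intro e he
    have h2 : ((tr W v : ℝ) : ℂ) / 2 + (e : ℂ) / 2 * Complex.I =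
        (((tr W v : ℝ) / 2 : ℝ) : ℂ) + ((e / 2 : ℝ) : ℂ) * Complex.I := by push_cast; ring
    rw [h2, Complex.norm_add_mul_I]
    congr 1
    rw [div_pow, div_pow, he, dd_sq h]
    ring
  fin_cases j
  · show ‖al W v 0‖ = _
    rw [al_zero h]
    exact h1 _ rfl
  · show ‖al W v 1‖ = _
    rw [al_one h]
    have h3 := h1 (-(dd W v)) (by ring)
    rw [← h3]
    congr 1
    push_cast
    ring

lemma al_bad (h : ¬ Gd W v) (j : Fin 2) : al W v j = 0 := by
  unfold al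
  rw [if_neg h]

lemma al_temp (W : WeierstrassCurve (𝓞 K)) (v : HeightOneSpectrum (𝓞 K)) (j : Fin 2) :
    ‖al W v j‖ ≤ (Ideal.absNorm v.asIdeal : ℝ) ^ (((1 : ℕ) : ℝ) / 2) := by
  have h1 : (Ideal.absNorm v.asIdeal : ℝ) ^ (((1 : ℕ) : ℝ) / 2) = √(Ideal.absNorm v.asIdeal) := by
    rw [Real.sqrt_eq_rpow]
    norm_num
  rw [h1]
  by_cases h : Gd W v
  · exact (al_norm h j).le
  · rw [al_bad h, norm_zero]
    exact Real.sqrt_nonneg _

/-- the Euler factor -/
noncomputable def fac (W : WeierstrassCurve (𝓞 K)) (s : ℂ) (v : HeightOneSpectrum (𝓞 K)) : ℂ :=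
  if Gd W v then (1 - (tr W v : ℂ) * (Ideal.absNorm v.asIdeal : ℂ) ^ (-s) +
    (Ideal.absNorm v.asIdeal : ℂ) ^ (1 - 2 * s))⁻¹ else 1

lemma fac_eq (W : WeierstrassCurve (𝓞 K)) (s : ℂ) (v : HeightOneSpectrum (𝓞 K)) :
    ∏ j, (1 - al W v j * (Ideal.absNorm v.asIdeal : ℂ) ^ (-s))⁻¹ = fac W s v := by
  unfold fac
  have hq : (Ideal.absNorm v.asIdeal : ℂ) ≠ 0 := by
    have := (q_pos v).ne'
    exact_mod_cast this
  rw [Fin.prod_univ_two]
  by_cases h : Gd W v
  · rw [if_pos h, ← mul_inv]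
    congr 1
    have h1 : (Ideal.absNorm v.asIdeal : ℂ) ^ (1 - 2 * s) =
        (Ideal.absNorm v.asIdeal : ℂ) * ((Ideal.absNorm v.asIdeal : ℂ) ^ (-s)) ^ 2 := by
      have e : (1 - 2 * s : ℂ) = 1 + (-s + -s) := by ring
      rw [e, Complex.cpow_add _ _ hq, Complex.cpow_add _ _ hq, Complex.cpow_one, sq]
    rw [h1]
    set y := (Ideal.absNorm v.asIdeal : ℂ) ^ (-s)
    linear_combination (-y) * al_add h + y ^ 2 * al_mul h
  · rw [if_neg h, al_bad h, al_bad h]
    simp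

/-- the continuation -/
structure IsCont (W : WeierstrassCurve (𝓞 K)) (F : ℂ → ℂ) : Prop where
  mer : ∀ s : ℂ, 1 ≤ s.re → MeromorphicAt F s
  prod : ∀ s : ℂ, 3 / 2 < s.re → HasProd (fac W s) (F s)

lemma IsCont.cont {F : ℂ → ℂ} (h : IsCont W F) : Pool.Agent.R409.RA.Cont 1 (al W) F where
  temp := al_temp W
  mer := fun s hs => h.mer s (by
    push_cast at hs
    linarith)
  eq := fun s hs => by
    have h1 := h.prod s (by
      push_cast at hs
      linarith)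
    rw [← h1.tprod_eq]
    unfold Pool.Agent.R409.EV.LProd
    exact tprod_congr fun v => (fac_eq W s v).symm

lemma ca_al (W : WeierstrassCurve (𝓞 K)) (v : HeightOneSpectrum (𝓞 K)) (j : Fin 2) :
    ca 1 (al W) v j = al W v j / ((Ideal.absNorm v.asIdeal : ℝ) : ℂ) := by
  unfold ca
  have h1 : (((1 : ℕ) : ℂ) + 1) / 2 = 1 := by
    push_cast
    norm_num
  rw [h1, Complex.cpow_neg_one, div_eq_mul_inv]
  push_cast
  rfl

lemma cv_al (h : Gd W v) : cv (ca 1 (al W)) v =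
    ((Real.log (((aff (red v W) : ℝ) + 1) / (Ideal.absNorm v.asIdeal : ℝ)) : ℝ) : ℂ) := by
  have h2 : (2 : ℝ) ≤ Ideal.absNorm v.asIdeal := Pool.Agent.R409.RA.two_le v
  have h3 := log_points (M := 2) (α := al W v) (q := (Ideal.absNorm v.asIdeal : ℝ)) (by linarith)
    (al_norm h)
    ⟨Polynomial.X ^ 2 - Polynomial.C (tr W v) * Polynomial.X +
      Polynomial.C (Ideal.absNorm v.asIdeal : ℤ), by
      rw [Fin.prod_univ_two]
      have h4 := congrArg Polynomial.C (al_add h)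
      have h5 := congrArg Polynomial.C (al_mul h)
      simp only [Polynomial.C_add, Polynomial.C_mul] at h4 h5
      simp only [Polynomial.map_add, Polynomial.map_sub, Polynomial.map_mul, Polynomial.map_pow,
        Polynomial.map_X, Polynomial.map_C]
      have e1 : (Int.castRingHom ℂ) (tr W v) = (tr W v : ℂ) := rfl
      have e2 : (Int.castRingHom ℂ) (Ideal.absNorm v.asIdeal : ℤ) = (Ideal.absNorm v.asIdeal : ℂ) := by
        simp
      rw [e1, e2]
      linear_combination (Polynomial.X : Polynomial ℂ) * h4 - h5⟩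
    (A := (aff (red v W) : ℝ) + 1) (by positivity) (by
      rw [Fin.prod_univ_two]
      have h4 : (tr W v : ℂ) = (Ideal.absNorm v.asIdeal : ℂ) - (aff (red v W) : ℂ) := by
        unfold tr
        push_cast
        rfl
      push_cast
      linear_combination al_add h - al_mul h + h4)
  rw [Real.sq_sqrt (by linarith)] at h3
  rw [h3]
  unfold cv
  exact Finset.sum_congr rfl fun j _ => by rw [ca_al]

lemma p2_al (h : Gd W v) : p2 (ca 1 (al W)) v =
    ((tr W v : ℂ) ^ 2 - 2 * (Ideal.absNorm v.asIdeal : ℂ)) / (Ideal.absNorm v.asIdeal : ℂ) ^ 2 := by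
  unfold p2
  rw [Fin.sum_univ_two, ca_al, ca_al, div_pow, div_pow, ← add_div]
  push_cast
  congr 1
  have h1 := al_add h
  have h2 := al_mul h
  linear_combination (al W v 0 + al W v 1 + (tr W v : ℂ)) * h1 - 2 * h2

lemma cv_bad (h : ¬ Gd W v) : cv (ca 1 (al W)) v = 0 := by
  unfold cv
  rw [Fin.sum_univ_two, ca_al, ca_al, al_bad h, al_bad h]
  simp

lemma p2_bad (h : ¬ Gd W v) : p2 (ca 1 (al W)) v = 0 := by
  unfold p2
  rw [Fin.sum_univ_two, ca_al, ca_al, al_bad h, al_bad h]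
  simp

/-- the weights -/
noncomputable def om (k τ X : ℝ) (v : HeightOneSpectrum (𝓞 K)) : ℂ :=
  (Complex.Gamma (1 + (1 + τ * Complex.I) * (k * Real.log (Ideal.absNorm v.asIdeal) / Real.log X)))⁻¹

/-- the term at `v` -/
noncomputable def term (W : WeierstrassCurve (𝓞 K)) (τ X : ℝ) (v : HeightOneSpectrum (𝓞 K)) : ℂ :=
  if Gd W v then
    (Real.log (((aff (red v W) : ℝ) + 1) / (Ideal.absNorm v.asIdeal : ℝ)) : ℂ) * om 1 τ X v +
      (om 1 τ X v - om 2 τ X v) *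
        (((tr W v : ℂ) ^ 2 - 2 * (Ideal.absNorm v.asIdeal : ℂ)) /
          (2 * (Ideal.absNorm v.asIdeal : ℂ) ^ 2))
  else 0

lemma om_one (τ X : ℝ) (v : HeightOneSpectrum (𝓞 K)) : om 1 τ X v = wgt τ (Real.log X) v := by
  unfold om wgt Pool.Agent.W524.RY.dir
  rw [Complex.ofReal_one, one_mul]
  rfl

lemma om_two (τ X : ℝ) (v : HeightOneSpectrum (𝓞 K)) : om 2 τ X v = wgt2 τ (Real.log X) v := by
  unfold om wgt2 Pool.Agent.W524.RY.dir
  have e : ((2 : ℝ) : ℂ) * Real.log (Ideal.absNorm v.asIdeal) / Real.log X =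
      2 * (Real.log (Pool.Agent.TH339.MP.nm v) / Real.log X) := by
    push_cast
    rw [mul_div_assoc]
    rfl
  rw [e]

lemma term_eq (W : WeierstrassCurve (𝓞 K)) (τ X : ℝ) (v : HeightOneSpectrum (𝓞 K)) :
    term W τ X v = cv (ca 1 (al W)) v * wgt τ (Real.log X) v -
      p2 (ca 1 (al W)) v / 2 * (wgt2 τ (Real.log X) v - wgt τ (Real.log X) v) := by
  unfold term
  by_cases h : Gd W v
  · rw [if_pos h, cv_al h, p2_al h, om_one, om_two]
    have hq : (Ideal.absNorm v.asIdeal : ℂ) ≠ 0 := by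
      have := (q_pos v).ne'
      exact_mod_cast this
    field_simp
    ring
  · rw [if_neg h, cv_bad h, p2_bad h]
    ring

theorem sum_eq (W : WeierstrassCurve (𝓞 K)) (τ X : ℝ) :
    ∑' v, term W τ X v = cmean2 (ca 1 (al W)) τ (Real.log X) := by
  unfold cmean2
  exact tsum_congr fun v => term_eq W τ X v

theorem term_summable (W : WeierstrassCurve (𝓞 K)) (τ : ℝ) {X : ℝ} (hX : 1 < X) :
    Summable fun v => ‖term W τ X v‖ := by
  have h1 := cmean2_summable (cen_ca (i := 1) (al_temp W)) τ (Real.log_pos hX)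
  refine h1.congr fun v => ?_
  rw [term_eq]

end Run7.h946.LL.EC
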