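import Pool.Agent.Run7.h946.LL.Fun

/-!
# The leading coefficient from the rotated means
-/

set_option autoImplicit false

namespace Run7.h946.LL

open NumberField IsDedekindDomain Filter Topology MeasureTheory
open Pool.Agent.TH339.MP (nm two_le_nm)
open Pool.Agent.R409.RA
open Pool.Agent.R409.EV (LProd)
open Pool.Agent.W524.RY (dir dir_re dir_im dir_ne dir_mul_re dir_mul_real_re main_abs)
open Pool.Agent.W189.ML (grow J exp_gap grow_ge grow_zero)
open Pool.Agent.W189.LC (kap J_log_eq)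

variable {K : Type} [Field K] [NumberField K] {N i : ℕ}
  {α : HeightOneSpectrum (𝓞 K) → Fin N → ℂ} {F : ℂ → ℂ}

/-! ### Geometry -/

lemma norm_dir_le (τ : ℝ) : ‖dir τ‖ ≤ 1 + |τ| := by
  have := Complex.norm_le_abs_re_add_abs_im (dir τ)
  simpa using this

/-- the sector in which the direction is controlled -/
lemma geo (τ : ℝ) : ∃ κ : ℝ, 0 < κ ∧
    (∀ ζ : ℂ, 0 < ζ.re → |ζ.im| ≤ κ * ζ.re → 0 < (dir τ * ζ).re) ∧
    (∀ ζ : ℂ, 3 ≤ ζ.re → |ζ.im| ≤ κ → 1 ≤ (dir τ * ζ).re) := by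
  have hτ0 := abs_nonneg τ
  set κ : ℝ := 1 / (2 * (1 + |τ|)) with hκ
  have hκ0 : 0 < κ := by positivity
  have hκτ : |τ| * κ ≤ 1 / 2 := by
    rw [hκ, mul_one_div, div_le_iff₀ (by positivity)]
    linarith
  refine ⟨κ, hκ0, fun ζ hζ hζi => ?_, fun ζ hζ hζi => ?_⟩
  · have e1 : τ * ζ.im ≤ 1 / 2 * ζ.re := by
      calc τ * ζ.im ≤ |τ| * |ζ.im| := by rw [← abs_mul]; exact le_abs_self _
        _ ≤ |τ| * (κ * ζ.re) := mul_le_mul_of_nonneg_left hζi hτ0
        _ = (|τ| * κ) * ζ.re := by ring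
        _ ≤ 1 / 2 * ζ.re := mul_le_mul_of_nonneg_right hκτ hζ.le
    rw [dir_mul_re]
    linarith
  · rw [dir_mul_re]
    have : τ * ζ.im ≤ 1 / 2 := by
      calc τ * ζ.im ≤ |τ| * |ζ.im| := by rw [← abs_mul]; exact le_abs_self _
        _ ≤ |τ| * κ := mul_le_mul_of_nonneg_left hζi hτ0
        _ ≤ 1 / 2 := hκτ
    linarith

lemma dir_three (τ : ℝ) : (dir τ * 3).re = 3 := by
  simp

lemma scont (hc : Cen (ca i α)) {τ κ : ℝ}
    (hstrip : ∀ ζ : ℂ, 3 ≤ ζ.re → |ζ.im| ≤ κ → 1 ≤ (dir τ * ζ).re) :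
    ContinuousOn (fun ζ => SS2 (ca i α) (dir τ * ζ)) {ζ | 3 ≤ ζ.re ∧ |ζ.im| ≤ κ} :=
  (SS2_cont hc).comp (by fun_prop) fun ζ hζ => hstrip ζ hζ.1 hζ.2

lemma scont3 (hc : Cen (ca i α)) (τ : ℝ) :
    ContinuousAt (fun ζ => SS2 (ca i α) (dir τ * ζ)) 3 := by
  have h5 : ContinuousAt (SS2 (ca i α)) (dir τ * 3) := by
    refine (SS2_cont hc).continuousAt ?_
    have h6 : {w : ℂ | 1 < w.re} ∈ 𝓝 (dir τ * 3) := by
      refine (isOpen_lt continuous_const Complex.continuous_re).mem_nhds ?_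
      show (1 : ℝ) < (dir τ * 3).re
      rw [dir_three]
      norm_num
    filter_upwards [h6] with w hw
    exact le_of_lt hw
  exact ContinuousAt.comp (g := SS2 (ca i α)) (f := fun ζ : ℂ => dir τ * ζ) h5 (by fun_prop)

lemma phi3 (h : ∀ v j, ‖α v j‖ ≤ (Ideal.absNorm v.asIdeal : ℝ) ^ ((i : ℝ) / 2)) (τ : ℝ)
    {P : ℂ → ℂ} (hΦ : ∀ᶠ w in 𝓝 (3 : ℂ), LProd α (((i : ℂ) + 1) / 2 + dir τ * w) = P w) :
    ∀ᶠ w in 𝓝 (3 : ℂ), Complex.exp (GG2 (ca i α) (dir τ * w) - SS2 (ca i α) (dir τ * w)) = P w := by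
  have e1 : {w : ℂ | 1 / 2 < (dir τ * w).re} ∈ 𝓝 (3 : ℂ) := by
    refine (isOpen_lt continuous_const (Complex.continuous_re.comp (by fun_prop))).mem_nhds ?_
    show (1 / 2 : ℝ) < (dir τ * 3).re
    rw [dir_three]
    norm_num
  filter_upwards [e1, hΦ] with w hw hw2
  rw [exp_eq2 h hw, hw2]

/-- the asymptotic formula for the mean, all directions -/
theorem cmean2_abs (h : ∀ v j, ‖α v j‖ ≤ (Ideal.absNorm v.asIdeal : ℝ) ^ ((i : ℝ) / 2)) (τ : ℝ)
    {x₀ x₁ : ℝ} (h0 : 0 ≤ x₁) (h01 : x₁ ≤ x₀) (h1 : x₀ ≤ 1) (m : ℤ) {Q : ℂ → ℂ}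
    (hQ : ∀ x ∈ Set.Icc x₁ 3, AnalyticAt ℂ Q (x : ℂ)) (hQ0 : ∀ x ∈ Set.Icc x₁ 3, Q (x : ℂ) ≠ 0)
    (hΦ : ∀ᶠ w in 𝓝 (3 : ℂ), LProd α (((i : ℂ) + 1) / 2 + dir τ * w) = (w - x₀) ^ m * Q w) :
    ∃ C T₀ : ℝ, 0 ≤ C ∧ 1 ≤ T₀ ∧ ∀ T : ℝ, T₀ ≤ T →
      ‖cmean2 (ca i α) τ T - m * ((Real.log T + grow (x₀ * T) : ℝ) : ℂ)‖ ≤
        C * Real.exp (Real.exp (x₁ * T)) := by
  have hc := cen_ca h
  obtain ⟨κ, hκ, hsec, hstrip⟩ := geo τ
  obtain ⟨C, T₀, hC⟩ := main_abs (S := fun ζ => SS2 (ca i α) (dir τ * ζ))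
    (G := fun ζ => GG2 (ca i α) (dir τ * ζ)) (Q := Q) (κ := κ)
    (CG := ∑' v : HeightOneSpectrum (𝓞 K), 8 * N * (nm v : ℝ) ^ (-(3 / 2) : ℝ))
    (CS := ∑' v : HeightOneSpectrum (𝓞 K), 5 * N * (nm v : ℝ) ^ (-(3 / 2) : ℝ))
    hκ h0 h01 h1 m
    (fun ζ h2 h3 => DifferentiableAt.comp (g := GG2 (ca i α)) (f := fun ζ : ℂ => dir τ * ζ) ζ
      (GG2_differentiable hc (hsec ζ h2 h3)) (by fun_prop))
    (fun ζ h2 h3 => GG2_le hc (hsec ζ h2 h3).le)
    (scont hc hstrip) (fun ζ h2 h3 => SS2_le hc (hstrip ζ h2 h3)) (scont3 hc τ) hQ hQ0 (phi3 h τ hΦ)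
  refine ⟨|C|, max T₀ (max 1 (Real.pi * |τ|)), abs_nonneg _,
    (le_max_left _ _).trans (le_max_right _ _), fun T hT => ?_⟩
  have hT1 : 1 ≤ T := ((le_max_left _ _).trans (le_max_right _ _)).trans hT
  have hTτ : Real.pi * |τ| ≤ T := ((le_max_right _ _).trans (le_max_right _ _)).trans hT
  have h3 := hC T ((le_max_left _ _).trans hT)
  rw [cmean2_eq hc τ hT1 hTτ] at h3
  exact h3.trans (mul_le_mul_of_nonneg_right (le_abs_self C) (Real.exp_pos _).le)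

/-- the precise formula for the mean, free directions -/
theorem cmean2_prec (h : ∀ v j, ‖α v j‖ ≤ (Ideal.absNorm v.asIdeal : ℝ) ^ ((i : ℝ) / 2)) (τ : ℝ)
    (m : ℤ) {Q : ℂ → ℂ} (hQ : ∀ x ∈ Set.Icc (0 : ℝ) 3, AnalyticAt ℂ Q (x : ℂ))
    (hQ0 : ∀ x ∈ Set.Icc (0 : ℝ) 3, Q (x : ℂ) ≠ 0)
    (hΦ : ∀ᶠ w in 𝓝 (3 : ℂ), LProd α (((i : ℂ) + 1) / 2 + dir τ * w) = w ^ m * Q w) :
    ∃ l : ℂ, Complex.exp l = Q 0 ∧ ∃ C T₀ : ℝ, 0 ≤ C ∧ 1 ≤ T₀ ∧ ∀ T : ℝ, T₀ ≤ T →
      ‖cmean2 (ca i α) τ T - (m * (Real.log T - kap) - l)‖ ≤ C / T := by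
  have hc := cen_ca h
  obtain ⟨κ, hκ, hsec, hstrip⟩ := geo τ
  have hR : 0 ≤ 1 + |τ| := by positivity
  have hcg := cg_nonneg K N
  obtain ⟨l, hl, C, T₀, hC0, hT0, hC⟩ := main_prec (S := fun ζ => SS2 (ca i α) (dir τ * ζ))
    (G := fun ζ => GG2 (ca i α) (dir τ * ζ)) (Q := Q) (κ := κ)
    (CG := cg K N * (1 + |τ|))
    (CS := ∑' v : HeightOneSpectrum (𝓞 K), 5 * N * (nm v : ℝ) ^ (-(3 / 2) : ℝ))
    hκ m (by positivity)
    (fun ζ h2 h3 => DifferentiableAt.comp (g := GG2 (ca i α)) (f := fun ζ : ℂ => dir τ * ζ) ζ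
      (GG2_differentiable hc (hsec ζ h2 h3)) (by fun_prop))
    (fun ζ h2 h3 => by
      refine (GG2_lin hc (hsec ζ h2 h3).le).trans ?_
      rw [norm_mul, mul_assoc]
      exact mul_le_mul_of_nonneg_left
        (mul_le_mul_of_nonneg_right (norm_dir_le τ) (norm_nonneg _)) hcg)
    (scont hc hstrip) (fun ζ h2 h3 => SS2_le hc (hstrip ζ h2 h3)) (scont3 hc τ) hQ hQ0 (phi3 h τ hΦ)
  refine ⟨l, hl, C, max T₀ (max 1 (Real.pi * |τ|)), hC0, hT0.trans (le_max_left _ _),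
    fun T hT => ?_⟩
  have hT1 : 1 ≤ T := ((le_max_left _ _).trans (le_max_right _ _)).trans hT
  have hTτ : Real.pi * |τ| ≤ T := ((le_max_right _ _).trans (le_max_right _ _)).trans hT
  have h3 := hC T ((le_max_left _ _).trans hT)
  rw [cmean2_eq hc τ hT1 hTτ, J_log_eq] at h3
  exact h3

/-! ### The function without its zero -/

/-- the quotient of the function by a power of the distance from the last zero on the ray -/
theorem exists_Q (h : Cont i α F) (τ : ℝ) {x₀ : ℝ} (h0 : 0 ≤ x₀) (h1 : x₀ ≤ 1) {m : ℤ}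
    (hm : meromorphicOrderAt F (rp i τ x₀) = m)
    (hnz : ∀ x : ℝ, x₀ < x → meromorphicOrderAt F (rp i τ x) = 0) :
    ∃ x₁ : ℝ, 0 ≤ x₁ ∧ x₁ ≤ x₀ ∧ (0 < x₀ → x₁ < x₀) ∧ ∃ Q : ℂ → ℂ,
      (∀ x ∈ Set.Icc x₁ 3, AnalyticAt ℂ Q (x : ℂ)) ∧ (∀ x ∈ Set.Icc x₁ 3, Q (x : ℂ) ≠ 0) ∧
      (∀ᶠ w in 𝓝 (3 : ℂ), LProd α (((i : ℂ) + 1) / 2 + dir τ * w) = (w - x₀) ^ m * Q w) ∧
      ∀ᶠ w in 𝓝[≠] (x₀ : ℂ), Q w = (w - x₀) ^ (-m) * F (((i : ℂ) + 1) / 2 + dir τ * w) := by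
  set L : ℂ → ℂ := fun w => ((i : ℂ) + 1) / 2 + dir τ * w with hL
  have hLan : ∀ w, AnalyticAt ℂ L w := fun w => by
    rw [hL]
    fun_prop
  have hLd : ∀ w, deriv L w ≠ 0 := by
    intro w
    have : HasDerivAt L (dir τ) w := by
      have := ((hasDerivAt_id w).const_mul (dir τ)).const_add (((i : ℂ) + 1) / 2)
      simpa [hL] using this
    rw [this.deriv]
    exact dir_ne τ
  have hLr : ∀ x : ℝ, L x = rp i τ x := fun x => rfl
  set P : ℂ → ℂ := F ∘ L with hP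
  have hPord : ∀ w, meromorphicOrderAt P w = meromorphicOrderAt F (L w) := fun w =>
    meromorphicOrderAt_comp_of_deriv_ne_zero (hLan w) (hLd w)
  have hPmer : ∀ x : ℝ, 0 ≤ x → MeromorphicAt P x := by
    intro x hx
    rw [hP, meromorphicAt_comp_iff_of_deriv_ne_zero (hLan _) (hLd _), hLr]
    apply h.mer
    rw [rp_re]
    linarith
  set R : ℂ → ℂ := fun w => (w - x₀) ^ (-m) * P w with hR
  -- the order of `R`
  have hRmer : ∀ x : ℝ, 0 ≤ x → MeromorphicAt R x := by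
    intro x hx
    rw [hR]
    have h2 : MeromorphicAt (fun w : ℂ => (w - x₀) ^ (-m)) x :=
      MeromorphicAt.fun_zpow (by fun_prop) _
    exact h2.fun_mul (hPmer x hx)
  have hR0 : meromorphicOrderAt R (x₀ : ℂ) = 0 := by
    obtain ⟨g, hg, hg0, he⟩ := (meromorphicOrderAt_eq_int_iff (hPmer x₀ h0)).1
      (by rw [hPord, hLr, hm])
    have h2 := (meromorphicOrderAt_eq_int_iff (n := 0) (hRmer x₀ h0)).2 ⟨g, hg, hg0, by
      filter_upwards [he, self_mem_nhdsWithin] with w hw hw2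
      rw [hR]
      simp only
      rw [hw, zpow_zero, one_smul, smul_eq_mul, ← mul_assoc, ← zpow_add₀ (sub_ne_zero.2 hw2),
        neg_add_cancel, zpow_zero, one_mul]⟩
    exact_mod_cast h2
  have hRx : ∀ x : ℝ, 0 ≤ x → x ≠ x₀ → meromorphicOrderAt F (rp i τ x) = 0 →
      meromorphicOrderAt R (x : ℂ) = 0 := by
    intro x hx hx0 hF
    obtain ⟨g, hg, hg0, he⟩ := (meromorphicOrderAt_eq_int_iff (n := 0) (hPmer x hx)).1
      (by rw [hPord, hLr, hF]; rfl)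
    have hne : (x : ℂ) - x₀ ≠ 0 := sub_ne_zero.2 (by exact_mod_cast hx0)
    have h2 := (meromorphicOrderAt_eq_int_iff (n := 0) (hRmer x hx)).2
      ⟨fun w => (w - x₀) ^ (-m) * g w, by
        refine AnalyticAt.fun_mul ?_ hg
        exact AnalyticAt.fun_zpow (by fun_prop) hne, by
        simp only
        exact mul_ne_zero (zpow_ne_zero _ hne) hg0, by
        filter_upwards [he] with w hw
        rw [hR]
        simp only
        rw [hw, zpow_zero, one_smul, one_smul]⟩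
    exact_mod_cast h2
  -- the left end
  obtain ⟨x₁, hx1, hx2, hx3, hx4⟩ : ∃ x₁ : ℝ, 0 ≤ x₁ ∧ x₁ ≤ x₀ ∧ (0 < x₀ → x₁ < x₀) ∧
      ∀ x : ℝ, x₁ ≤ x → x < x₀ → meromorphicOrderAt F (rp i τ x) = 0 := by
    rcases h0.lt_or_eq with h2 | h2
    · have h3 := h.punctured (s := rp i τ x₀) (by rw [rp_re]; linarith)
      have h4 : Tendsto (rp i τ) (𝓝[≠] x₀) (𝓝[≠] (rp i τ x₀)) := by
        refine tendsto_nhdsWithin_of_tendsto_nhds_of_eventually_within _
          ((continuous_rp i τ).continuousAt.mono_left nhdsWithin_le_nhds) ?_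
        filter_upwards [self_mem_nhdsWithin] with x hx hx2
        exact hx (rp_injective i τ hx2)
      have h5 := h4.eventually h3
      rw [eventually_nhdsWithin_iff, Metric.eventually_nhds_iff] at h5
      obtain ⟨ε, hε, h6⟩ := h5
      refine ⟨max 0 (x₀ - ε / 2), le_max_left _ _, max_le h0 (by linarith), fun _ =>
        max_lt h2 (by linarith), fun x hx hx0 => ?_⟩
      refine h6 ?_ hx0.ne
      have := (le_max_right 0 (x₀ - ε / 2)).trans hx
      rw [Real.dist_eq, abs_lt]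
      constructor <;> linarith
    · refine ⟨0, le_rfl, h0, fun h3 => absurd h3 (by rw [← h2]; exact lt_irrefl 0), fun x hx hx0 => ?_⟩
      linarith
  have hord : ∀ x ∈ Set.Icc x₁ 3, meromorphicOrderAt R (x : ℂ) = 0 := by
    intro x hx
    have hx0 : 0 ≤ x := hx1.trans hx.1
    rcases lt_trichotomy x x₀ with h2 | h2 | h2
    · exact hRx x hx0 h2.ne (hx4 x hx.1 h2)
    · rw [h2]
      exact hR0
    · exact hRx x hx0 h2.ne' (hnz x h2)
  refine ⟨x₁, hx1, hx2, hx3, nfm R,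
    fun x hx => (nfm_analytic (hRmer x (hx1.trans hx.1)) (hord x hx)).1,
    fun x hx => (nfm_analytic (hRmer x (hx1.trans hx.1)) (hord x hx)).2, ?_, ?_⟩
  · have h3x : (3 : ℂ) ≠ (x₀ : ℂ) := by
      have : (3 : ℝ) ≠ x₀ := by linarith
      exact_mod_cast this
    have hre3 : (i : ℝ) / 2 + 1 < (L 3).re := by
      have h2 := hLr 3
      have h3 : ((3 : ℝ) : ℂ) = 3 := by norm_num
      rw [h3] at h2
      rw [h2, rp_re]
      linarith
    have ho : IsOpen {z : ℂ | (i : ℝ) / 2 + 1 < z.re} :=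
      isOpen_lt continuous_const Complex.continuous_re
    have hLc : ContinuousAt L 3 := (hLan 3).continuousAt
    have hP3 : AnalyticAt ℂ P 3 := AnalyticAt.comp (g := F) (f := L) (h.analytic hre3).1 (hLan 3)
    have hR3 : AnalyticAt ℂ R 3 := by
      rw [hR]
      refine AnalyticAt.fun_mul ?_ hP3
      exact AnalyticAt.fun_zpow (by fun_prop) (sub_ne_zero.2 h3x)
    filter_upwards [nfm_self hR3, isOpen_ne.mem_nhds h3x, hLc.eventually (ho.mem_nhds hre3)]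
      with w hw hw2 hw3
    rw [hw, hR]
    simp only
    rw [← mul_assoc, ← zpow_add₀ (sub_ne_zero.2 hw2), add_neg_cancel, zpow_zero, one_mul]
    exact (h.eq _ hw3).symm
  · have h2 := nfm_eq (hRmer x₀ h0)
    have h3 := (hRmer x₀ h0).eqOn_compl_singleton_toMeromorphicNFAt
    filter_upwards [h2.filter_mono nhdsWithin_le_nhds, self_mem_nhdsWithin] with w hw hw2
    rw [hw, ← h3 hw2]
    rfl

/-! ### Blocked directions -/

/-- a function with the asymptotic behaviour of the mean in a blocked direction -/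
theorem blocked_big {f : ℝ → ℂ} {x₀ x₁ C : ℝ} {m : ℤ} (h0 : 0 < x₀) (hm0 : m ≠ 0) (hx1 : 0 ≤ x₁)
    (hx3' : x₁ < x₀) (hC0 : 0 ≤ C)
    (hC : ∀ᶠ T : ℝ in atTop, ‖f T - m * ((Real.log T + grow (x₀ * T) : ℝ) : ℂ)‖ ≤
        C * Real.exp (Real.exp (x₁ * T))) :
    ∀ᶠ T : ℝ in atTop, Real.exp T ≤ (Int.sign m : ℝ) * (f T).re := by
  have hm1' : (1 : ℝ) ≤ |(m : ℝ)| := by
    have := Int.one_le_abs hm0
    exact_mod_cast this
  -- quantitative closeness
  have key : ∀ᶠ T : ℝ in atTop, ‖f T - ((m * grow (x₀ * T) : ℝ) : ℂ)‖ ≤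
      (C + |(m : ℝ)|) * Real.exp (-T) * grow (x₀ * T) := by
    have e1 := exp_gap hx1 hx3'
    have e2 := eventually_ge_atTop (1 : ℝ)
    have e3 := eventually_ge_atTop (5 / x₀)
    filter_upwards [e1, e2, e3, hC] with T h2 h3 h4 h7
    have hT1 : 1 ≤ T := h3
    have h5 : 5 ≤ x₀ * T := by
      rw [div_le_iff₀ h0] at h4
      linarith
    have h6 := grow_ge h5
    set g := grow (x₀ * T) with hg
    have hlogT : Real.log T ≤ T := (Real.log_le_sub_one_of_pos (by linarith)).trans (by linarith)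
    have hlogT0 : 0 ≤ Real.log T := Real.log_nonneg hT1
    set ee := Real.exp (Real.exp (x₁ * T)) with hee
    have h1e : 1 ≤ ee := Real.one_le_exp (Real.exp_pos _).le
    have h8 : T * ee ≤ Real.exp (-T) * g := by
      have h9 : T ≤ Real.exp T := by
        have := Real.add_one_le_exp T
        linarith
      calc T * ee ≤ Real.exp T * ee := by gcongr
        _ = Real.exp (-T) * Real.exp (Real.exp (x₁ * T) + 2 * T) := by
          rw [hee, ← Real.exp_add, ← Real.exp_add]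
          congr 1
          ring
        _ ≤ Real.exp (-T) * Real.exp (Real.exp (x₀ * T - 2)) := by
          gcongr
          linarith
        _ ≤ _ := by gcongr
    have h10 : ‖f T - ((m * g : ℝ) : ℂ)‖ ≤ C * ee + |(m : ℝ)| * Real.log T := by
      have h11 : f T - ((m * g : ℝ) : ℂ) =
          (f T - m * ((Real.log T + g : ℝ) : ℂ)) + ((m * Real.log T : ℝ) : ℂ) := by
        push_cast
        ring
      rw [h11]
      refine (norm_add_le _ _).trans (add_le_add h7 ?_)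
      rw [Complex.norm_real, Real.norm_eq_abs, abs_mul, abs_of_nonneg hlogT0]
    refine h10.trans ?_
    have h12 : C * ee ≤ C * (T * ee) := by
      gcongr
      nlinarith
    have h13 : |(m : ℝ)| * Real.log T ≤ |(m : ℝ)| * (T * ee) := by
      gcongr
      nlinarith
    calc C * ee + |(m : ℝ)| * Real.log T ≤ (C + |(m : ℝ)|) * (T * ee) := by linarith
      _ ≤ (C + |(m : ℝ)|) * (Real.exp (-T) * g) := by gcongr
      _ = _ := by ring
  have hgpos : ∀ᶠ T : ℝ in atTop, Real.exp (Real.exp (x₀ * T - 2)) ≤ grow (x₀ * T) := by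
    filter_upwards [eventually_ge_atTop (5 / x₀)] with T h4
    refine grow_ge ?_
    rw [div_le_iff₀ h0] at h4
    linarith
  have e1 := exp_gap le_rfl h0
  have e4 : ∀ᶠ T : ℝ in atTop, (C + |(m : ℝ)|) * Real.exp (-T) ≤ 1 / 2 := by
    have h5 : Tendsto (fun T : ℝ => (C + |(m : ℝ)|) * Real.exp (-T)) atTop
        (𝓝 ((C + |(m : ℝ)|) * 0)) :=
      Real.tendsto_exp_neg_atTop_nhds_zero.const_mul _
    rw [mul_zero] at h5
    exact h5.eventually (eventually_le_nhds (by norm_num))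
  filter_upwards [key, hgpos, e1, e4, eventually_ge_atTop 1] with T h2 h3 h4 h5 h6
  set g := grow (x₀ * T) with hg
  have hg0 : 0 < g := (Real.exp_pos _).trans_le h3
  have h9 : g / 2 ≤ (Int.sign m : ℝ) * (f T).re := by
    have h10 : |(f T).re - m * g| ≤ (C + |(m : ℝ)|) * Real.exp (-T) * g := by
      have := (Complex.abs_re_le_norm _).trans h2
      rwa [Complex.sub_re, Complex.ofReal_re] at this
    have h11 : (C + |(m : ℝ)|) * Real.exp (-T) * g ≤ 1 / 2 * g := by gcongr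
    have h12 : g ≤ |(m : ℝ)| * g := le_mul_of_one_le_left hg0.le hm1'
    have h13 : (Int.sign m : ℝ) * m = |(m : ℝ)| := by
      have := Int.sign_mul_self_eq_abs m
      exact_mod_cast this
    have h14 : |(Int.sign m : ℝ)| = 1 := by
      rcases lt_or_gt_of_ne hm0 with h15 | h15
      · rw [Int.sign_eq_neg_one_of_neg h15]
        simp
      · rw [Int.sign_eq_one_of_pos h15]
        simp
    have h15 : (Int.sign m : ℝ) * (f T).re = |(m : ℝ)| * g +
        (Int.sign m : ℝ) * ((f T).re - m * g) := by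
      rw [mul_sub, ← mul_assoc, h13]
      ring
    have h16 : |(Int.sign m : ℝ) * ((f T).re - m * g)| ≤ 1 / 2 * g := by
      rw [abs_mul, h14, one_mul]
      exact h10.trans h11
    rw [h15]
    linarith [(abs_le.1 h16).1]
  have h10 : 2 * Real.exp T ≤ g := by
    have h11 : (2 : ℝ) ≤ Real.exp 1 := by
      have := Real.add_one_le_exp (1 : ℝ)
      linarith
    rw [zero_mul, Real.exp_zero] at h4
    calc 2 * Real.exp T ≤ Real.exp 1 * Real.exp T := by gcongr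
      _ = Real.exp (1 + T) := by rw [Real.exp_add]
      _ ≤ Real.exp (Real.exp (x₀ * T - 2)) := by
        gcongr
        linarith
      _ ≤ g := h3
  linarith

end Run7.h946.LL
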