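import Pool.Agent.R409.RA.Fin
import Pool.Agent.Run7.h946.LL.Abs

/-!
# The correction function with second order terms
-/

set_option autoImplicit false

namespace Run7.h946.LL

open NumberField IsDedekindDomain Filter Topology MeasureTheory
open Pool.Agent.TH339.MP (nm two_le_nm)
open Pool.Agent.R409.RA
open Pool.Agent.W524.RY (dir dir_re dir_im dir_ne dir_mul_re dir_mul_real_re main_abs inv_gamma_le
  J_cexp)
open Pool.Agent.W189.ML (grow HS J J_hasSum J_const_mul J_sub Adm)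

/-! ### One factor -/

theorem term_bound3 {a y : ℂ} (ha : ‖a‖ ≤ 3 / 4) (hy : ‖y‖ ≤ 1) :
    ‖-Complex.log (1 - a * y) + y * Complex.log (1 - a) - a ^ 2 / 2 * (y ^ 2 - y)‖ ≤
      4 * ‖a‖ ^ 3 * (‖y‖ * ‖1 - y‖) := by
  have hay : ‖a * y‖ < 1 := by
    rw [norm_mul]
    nlinarith [norm_nonneg a, norm_nonneg y]
  have h1 := Complex.hasSum_taylorSeries_neg_log hay
  have h2 := (Complex.hasSum_taylorSeries_neg_log (z := a) (by linarith)).mul_left y
  have h3 := h1.sub h2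
  rw [← hasSum_nat_add_iff' 3] at h3
  simp only [Finset.sum_range_succ, Finset.sum_range_zero, pow_zero, Nat.cast_zero, div_zero,
    mul_zero, sub_zero, add_zero, pow_one, Nat.cast_one, div_one] at h3
  have e1 : -Complex.log (1 - a * y) - y * -Complex.log (1 - a) -
      (0 + (a * y - y * a) + ((a * y) ^ 2 / ((2 : ℕ) : ℂ) - y * (a ^ 2 / ((2 : ℕ) : ℂ)))) =
      -Complex.log (1 - a * y) + y * Complex.log (1 - a) - a ^ 2 / 2 * (y ^ 2 - y) := by
    push_cast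
    ring
  rw [e1] at h3
  have hg : HasSum (fun n : ℕ => ‖a‖ ^ 3 * (‖y‖ * ‖1 - y‖) * ‖a‖ ^ n)
      (‖a‖ ^ 3 * (‖y‖ * ‖1 - y‖) * (1 - ‖a‖)⁻¹) :=
    (hasSum_geometric_of_lt_one (norm_nonneg a) (by linarith)).mul_left _
  have h4 := h3.norm_le_of_bounded hg (fun n => ?_)
  · refine h4.trans ?_
    have h5 : (1 - ‖a‖)⁻¹ ≤ 4 := by
      rw [inv_le_comm₀ (by linarith) (by norm_num)]
      linarith
    calc ‖a‖ ^ 3 * (‖y‖ * ‖1 - y‖) * (1 - ‖a‖)⁻¹ ≤ ‖a‖ ^ 3 * (‖y‖ * ‖1 - y‖) * 4 :=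
          mul_le_mul_of_nonneg_left h5 (by positivity)
      _ = _ := by ring
  · have e2 : (a * y) ^ (n + 3) / ((n + 3 : ℕ) : ℂ) - y * (a ^ (n + 3) / ((n + 3 : ℕ) : ℂ)) =
        a ^ (n + 3) * (y * (y ^ (n + 2) - 1)) / ((n + 3 : ℕ) : ℂ) := by ring
    rw [e2, norm_div, norm_mul, norm_mul, norm_pow, Complex.norm_natCast]
    have h5 := pow_sub_one_le hy (n + 2)
    have hn : (0 : ℝ) < ((n + 3 : ℕ) : ℝ) := by positivity
    rw [div_le_iff₀ hn]
    have h6 : ((n + 2 : ℕ) : ℝ) ≤ ((n + 3 : ℕ) : ℝ) := by exact_mod_cast Nat.le_succ _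
    calc ‖a‖ ^ (n + 3) * (‖y‖ * ‖y ^ (n + 2) - 1‖)
        ≤ ‖a‖ ^ (n + 3) * (‖y‖ * (((n + 2 : ℕ) : ℝ) * ‖1 - y‖)) := by gcongr
      _ ≤ ‖a‖ ^ (n + 3) * (‖y‖ * (((n + 3 : ℕ) : ℝ) * ‖1 - y‖)) := by gcongr
      _ = _ := by ring

variable {K : Type} [Field K] [NumberField K] {N : ℕ}
  {a : HeightOneSpectrum (𝓞 K) → Fin N → ℂ}

/-- the sum of the squares of the parameters -/
noncomputable def p2 (a : HeightOneSpectrum (𝓞 K) → Fin N → ℂ) (v : HeightOneSpectrum (𝓞 K)) : ℂ :=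
  ∑ j, a v j ^ 2

/-- the terms of the correction function -/
noncomputable def gt2 (a : HeightOneSpectrum (𝓞 K) → Fin N → ℂ) (v : HeightOneSpectrum (𝓞 K))
    (w : ℂ) : ℂ :=
  ∑ j, (-Complex.log (1 - a v j * yv v w) + yv v w * Complex.log (1 - a v j) -
    a v j ^ 2 / 2 * (yv v w ^ 2 - yv v w))

/-- the correction function -/
noncomputable def GG2 (a : HeightOneSpectrum (𝓞 K) → Fin N → ℂ) (w : ℂ) : ℂ := ∑' v, gt2 a v w

/-- the terms of the Dirichlet series -/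
noncomputable def st2 (a : HeightOneSpectrum (𝓞 K) → Fin N → ℂ) (v : HeightOneSpectrum (𝓞 K))
    (w : ℂ) : ℂ := cv a v * yv v w - p2 a v / 2 * (yv v w ^ 2 - yv v w)

/-- the Dirichlet series -/
noncomputable def SS2 (a : HeightOneSpectrum (𝓞 K) → Fin N → ℂ) (w : ℂ) : ℂ := ∑' v, st2 a v w

lemma gt2_eq (v : HeightOneSpectrum (𝓞 K)) (w : ℂ) :
    gt2 a v w = gt a v w - p2 a v / 2 * (yv v w ^ 2 - yv v w) := by
  unfold gt2 gt p2
  rw [Finset.sum_sub_distrib, Finset.sum_div, Finset.sum_mul]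

lemma norm_p2 (h : Cen a) (v : HeightOneSpectrum (𝓞 K)) :
    ‖p2 a v‖ ≤ N * (nm v : ℝ) ^ (-1 : ℝ) := by
  unfold p2
  refine (norm_sum_le_of_le (n := fun _ => (nm v : ℝ) ^ (-1 : ℝ)) _ fun j _ => ?_).trans
    (le_of_eq ?_)
  · rw [norm_pow]
    exact h.sq v j
  · rw [Finset.sum_const, Finset.card_univ, Fintype.card_fin, nsmul_eq_mul]

lemma one_le (v : HeightOneSpectrum (𝓞 K)) : (1 : ℝ) ≤ nm v := by linarith [two_le v]

lemma norm_st2 (h : Cen a) (v : HeightOneSpectrum (𝓞 K)) {w : ℂ} (hw : 0 ≤ w.re) :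
    ‖st2 a v w‖ ≤ 5 * N * (nm v : ℝ) ^ (-(1 / 2 + w.re)) := by
  unfold st2
  have h1 := norm_cv_yv h v w
  have h2 := norm_p2 h v
  have h3 : yv v w ^ 2 - yv v w = -(yv v w * (1 - yv v w)) := by ring
  have h4 := one_sub_yv_two v hw
  have h5 : (nm v : ℝ) ^ (-1 : ℝ) ≤ (nm v : ℝ) ^ (-(1 / 2) : ℝ) :=
    Real.rpow_le_rpow_of_exponent_le (one_le v) (by norm_num)
  have h6 : (nm v : ℝ) ^ (-(1 / 2 + w.re)) = (nm v : ℝ) ^ (-(1 / 2) : ℝ) * (nm v : ℝ) ^ (-w.re) := by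
    rw [← Real.rpow_add (nm_pos v)]
    congr 1
    ring
  have h7 : 0 ≤ (nm v : ℝ) ^ (-w.re) := Real.rpow_nonneg (nm_pos v).le _
  have h8 : ‖p2 a v / 2 * (yv v w ^ 2 - yv v w)‖ ≤ N * (nm v : ℝ) ^ (-(1 / 2 + w.re)) := by
    rw [norm_mul, norm_div, h3, norm_neg, norm_mul, norm_yv]
    have e2 : ‖(2 : ℂ)‖ = 2 := by norm_num
    rw [e2]
    calc ‖p2 a v‖ / 2 * ((nm v : ℝ) ^ (-w.re) * ‖1 - yv v w‖)
        ≤ (N * (nm v : ℝ) ^ (-(1 / 2) : ℝ)) / 2 * ((nm v : ℝ) ^ (-w.re) * 2) := by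
          have h9 : ‖p2 a v‖ ≤ N * (nm v : ℝ) ^ (-(1 / 2) : ℝ) :=
            h2.trans (mul_le_mul_of_nonneg_left h5 (Nat.cast_nonneg _))
          gcongr
      _ = _ := by rw [h6]; ring
  refine (norm_sub_le _ _).trans ((add_le_add h1 h8).trans (le_of_eq ?_))
  ring

lemma norm_gt2 (h : Cen a) (v : HeightOneSpectrum (𝓞 K)) {w : ℂ} (hw : 0 ≤ w.re) :
    ‖gt2 a v w‖ ≤ 4 * N * ((nm v : ℝ) ^ (-(3 / 2) : ℝ) * ‖1 - yv v w‖) := by
  unfold gt2
  refine (norm_sum_le_of_le (n := fun _ => 4 * ((nm v : ℝ) ^ (-(3 / 2) : ℝ) * ‖1 - yv v w‖)) _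
    fun j _ => ?_).trans (le_of_eq ?_)
  · refine (term_bound3 (h.le34 v j) (norm_yv_le v hw)).trans ?_
    have h1 : (nm v : ℝ) ^ (-(3 / 2) : ℝ) = (nm v : ℝ) ^ (-1 : ℝ) * (nm v : ℝ) ^ (-(1 / 2) : ℝ) := by
      rw [← Real.rpow_add (nm_pos v)]
      congr 1
      norm_num
    have h2 := h.sq v j
    have h3 := h v j
    have h4 := norm_yv_le v hw
    have h5 : 0 ≤ (nm v : ℝ) ^ (-1 : ℝ) := Real.rpow_nonneg (nm_pos v).le _
    have h6 : ‖a v j‖ ^ 3 ≤ (nm v : ℝ) ^ (-(3 / 2) : ℝ) := by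
      rw [h1, pow_succ]
      exact mul_le_mul h2 h3 (norm_nonneg _) h5
    calc 4 * ‖a v j‖ ^ 3 * (‖yv v w‖ * ‖1 - yv v w‖)
        ≤ 4 * (nm v : ℝ) ^ (-(3 / 2) : ℝ) * (1 * ‖1 - yv v w‖) := by gcongr
      _ = _ := by ring
  · rw [Finset.sum_const, Finset.card_univ, Fintype.card_fin, nsmul_eq_mul]
    ring

lemma norm_gt2_le (h : Cen a) (v : HeightOneSpectrum (𝓞 K)) {w : ℂ} (hw : 0 ≤ w.re) :
    ‖gt2 a v w‖ ≤ 8 * N * (nm v : ℝ) ^ (-(3 / 2) : ℝ) := by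
  refine (norm_gt2 h v hw).trans ?_
  have h1 := one_sub_yv_two v hw
  have h3 : 0 ≤ (nm v : ℝ) ^ (-(3 / 2) : ℝ) := Real.rpow_nonneg (nm_pos v).le _
  calc 4 * N * ((nm v : ℝ) ^ (-(3 / 2) : ℝ) * ‖1 - yv v w‖)
      ≤ 4 * N * ((nm v : ℝ) ^ (-(3 / 2) : ℝ) * 2) := by gcongr
    _ = _ := by ring

lemma norm_gt2_lin (h : Cen a) (v : HeightOneSpectrum (𝓞 K)) {w : ℂ} (hw : 0 ≤ w.re) :
    ‖gt2 a v w‖ ≤ 16 * N * ‖w‖ * (nm v : ℝ) ^ (-(5 / 4) : ℝ) := by
  refine (norm_gt2 h v hw).trans ?_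
  have h1 := one_sub_yv v hw
  have h2 : Real.log (nm v) ≤ 4 * (nm v : ℝ) ^ (1 / 4 : ℝ) := by
    have h3 := Real.log_le_rpow_div (x := (nm v : ℝ)) (ε := 1 / 4) (nm_pos v).le (by norm_num)
    refine h3.trans (le_of_eq ?_)
    ring
  have h3 : 0 ≤ (nm v : ℝ) ^ (-(3 / 2) : ℝ) := Real.rpow_nonneg (nm_pos v).le _
  have h4 : (nm v : ℝ) ^ (-(5 / 4) : ℝ) = (nm v : ℝ) ^ (-(3 / 2) : ℝ) * (nm v : ℝ) ^ (1 / 4 : ℝ) := by
    rw [← Real.rpow_add (nm_pos v)]
    congr 1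
    norm_num
  calc 4 * N * ((nm v : ℝ) ^ (-(3 / 2) : ℝ) * ‖1 - yv v w‖)
      ≤ 4 * N * ((nm v : ℝ) ^ (-(3 / 2) : ℝ) * (‖w‖ * (4 * (nm v : ℝ) ^ (1 / 4 : ℝ)))) := by
        have h5 : ‖1 - yv v w‖ ≤ ‖w‖ * (4 * (nm v : ℝ) ^ (1 / 4 : ℝ)) :=
          h1.trans (mul_le_mul_of_nonneg_left h2 (norm_nonneg _))
        gcongr
    _ = _ := by rw [h4]; ring

lemma yv_diff (v : HeightOneSpectrum (𝓞 K)) : Differentiable ℂ (yv v) := by
  unfold yv
  fun_prop

lemma gt2_differentiable (h : Cen a) (v : HeightOneSpectrum (𝓞 K)) {w : ℂ} (hw : 0 < w.re) :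
    DifferentiableAt ℂ (gt2 a v) w := by
  have h1 : gt2 a v = fun w => gt a v w - p2 a v / 2 * (yv v w ^ 2 - yv v w) :=
    funext fun w => gt2_eq v w
  rw [h1]
  have h2 := yv_diff v w
  exact (gt_differentiable h v hw).sub (((h2.pow 2).sub h2).const_mul _)

theorem GG2_differentiable (h : Cen a) {w : ℂ} (hw : 0 < w.re) : DifferentiableAt ℂ (GG2 a) w := by
  set U : Set ℂ := {z | 0 < z.re} with hU
  have hUo : IsOpen U := isOpen_lt continuous_const Complex.continuous_re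
  have h1 : DifferentiableOn ℂ (fun z => ∑' v, gt2 a v z) U := by
    refine Complex.differentiableOn_tsum_of_summable_norm
      (u := fun v : HeightOneSpectrum (𝓞 K) => 8 * N * (nm v : ℝ) ^ (-(3 / 2) : ℝ))
      ((summable_nm (by norm_num)).mul_left _) (fun v z hz => ?_) hUo (fun v z hz => ?_)
    · exact (gt2_differentiable h v hz).differentiableWithinAt
    · exact norm_gt2_le h v (le_of_lt hz)
  exact (h1 w hw).differentiableAt (hUo.mem_nhds hw)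

/-- the correction function is bounded -/
theorem GG2_le (h : Cen a) {w : ℂ} (hw : 0 ≤ w.re) :
    ‖GG2 a w‖ ≤ ∑' v : HeightOneSpectrum (𝓞 K), 8 * N * (nm v : ℝ) ^ (-(3 / 2) : ℝ) := by
  unfold GG2
  exact tsum_of_norm_bounded ((summable_nm (by norm_num)).mul_left _).hasSum
    fun v => norm_gt2_le h v hw

/-- the constant in the linear bound -/
noncomputable def cg (K : Type) [Field K] [NumberField K] (N : ℕ) : ℝ :=
  16 * N * ∑' v : HeightOneSpectrum (𝓞 K), (nm v : ℝ) ^ (-(5 / 4) : ℝ)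

lemma cg_nonneg (K : Type) [Field K] [NumberField K] (N : ℕ) : 0 ≤ cg K N := by
  unfold cg
  exact mul_nonneg (by positivity) (tsum_nonneg fun v => Real.rpow_nonneg (nm_pos v).le _)

/-- the correction function is small near the centre -/
theorem GG2_lin (h : Cen a) {w : ℂ} (hw : 0 ≤ w.re) : ‖GG2 a w‖ ≤ cg K N * ‖w‖ := by
  unfold GG2
  have h1 : HasSum (fun v : HeightOneSpectrum (𝓞 K) => 16 * N * ‖w‖ * (nm v : ℝ) ^ (-(5 / 4) : ℝ))
      (16 * N * ‖w‖ * ∑' v : HeightOneSpectrum (𝓞 K), (nm v : ℝ) ^ (-(5 / 4) : ℝ)) :=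
    (summable_nm (K := K) (σ := 5 / 4) (by norm_num)).hasSum.mul_left _
  refine (tsum_of_norm_bounded h1 fun v => norm_gt2_lin h v hw).trans (le_of_eq ?_)
  unfold cg
  ring

lemma norm_st2_one (h : Cen a) (v : HeightOneSpectrum (𝓞 K)) {w : ℂ} (hw : 1 ≤ w.re) :
    ‖st2 a v w‖ ≤ 5 * N * (nm v : ℝ) ^ (-(3 / 2) : ℝ) := by
  refine (norm_st2 h v (by linarith)).trans ?_
  have h2 : (nm v : ℝ) ^ (-(1 / 2 + w.re)) ≤ (nm v : ℝ) ^ (-(3 / 2) : ℝ) :=
    Real.rpow_le_rpow_of_exponent_le (one_le v) (by linarith)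
  gcongr

lemma SS2_summable (h : Cen a) {w : ℂ} (hw : 1 / 2 < w.re) :
    Summable fun v : HeightOneSpectrum (𝓞 K) => st2 a v w :=
  Summable.of_norm_bounded ((summable_nm (σ := 1 / 2 + w.re) (by linarith)).mul_left _)
    fun v => norm_st2 h v (by linarith)

lemma SS2_cont (h : Cen a) : ContinuousOn (SS2 a) {w | 1 ≤ w.re} := by
  unfold SS2
  refine continuousOn_tsum (fun v => ?_) ((summable_nm (K := K) (σ := 3 / 2) (by norm_num)).mul_left _)
    fun v w hw => norm_st2_one h v hw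
  unfold st2 yv
  fun_prop

lemma SS2_le (h : Cen a) {w : ℂ} (hw : 1 ≤ w.re) :
    ‖SS2 a w‖ ≤ ∑' v : HeightOneSpectrum (𝓞 K), 5 * N * (nm v : ℝ) ^ (-(3 / 2) : ℝ) := by
  unfold SS2
  exact tsum_of_norm_bounded ((summable_nm (by norm_num)).mul_left _).hasSum
    fun v => norm_st2_one h v hw

variable {i : ℕ} {α : HeightOneSpectrum (𝓞 K) → Fin N → ℂ}

/-- the correction function minus the Dirichlet series is the logarithm of the L-function -/
theorem log_eq2 (h : ∀ v j, ‖α v j‖ ≤ (Ideal.absNorm v.asIdeal : ℝ) ^ ((i : ℝ) / 2)) {w : ℂ}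
    (hw : 1 / 2 < w.re) : GG2 (ca i α) w - SS2 (ca i α) w =
      Pool.Agent.R409.EV.logL α (((i : ℂ) + 1) / 2 + w) := by
  have hc := cen_ca h
  have hs1 : Summable fun v : HeightOneSpectrum (𝓞 K) => gt2 (ca i α) v w :=
    Summable.of_norm_bounded ((summable_nm (σ := 3 / 2) (by norm_num)).mul_left _)
      fun v => norm_gt2_le hc v (by linarith)
  have hs2 := SS2_summable hc hw
  unfold GG2 SS2 Pool.Agent.R409.EV.logL
  rw [← hs1.tsum_sub hs2]
  refine tsum_congr fun v => ?_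
  rw [gt2_eq]
  unfold st2 gt cv
  rw [Finset.sum_add_distrib, ← Finset.mul_sum]
  simp_rw [ca_yv]
  ring

theorem exp_eq2 (h : ∀ v j, ‖α v j‖ ≤ (Ideal.absNorm v.asIdeal : ℝ) ^ ((i : ℝ) / 2)) {w : ℂ}
    (hw : 1 / 2 < w.re) : Complex.exp (GG2 (ca i α) w - SS2 (ca i α) w) =
      Pool.Agent.R409.EV.LProd α (((i : ℂ) + 1) / 2 + w) := by
  rw [log_eq2 h hw, Pool.Agent.R409.EV.LProd_exp h]
  rw [Complex.add_re, re_half]
  linarith

/-! ### The mean -/

/-- the weights at the squares of the primes -/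
noncomputable def wgt2 (τ T : ℝ) (v : HeightOneSpectrum (𝓞 K)) : ℂ :=
  (Complex.Gamma (1 + dir τ * (2 * (Real.log (nm v) / T))))⁻¹

/-- the mean -/
noncomputable def cmean2 (a : HeightOneSpectrum (𝓞 K) → Fin N → ℂ) (τ T : ℝ) : ℂ :=
  ∑' v : HeightOneSpectrum (𝓞 K), (cv a v * wgt τ T v - p2 a v / 2 * (wgt2 τ T v - wgt τ T v))

theorem cmean2_eq (h : Cen a) (τ : ℝ) {T : ℝ} (hT : 1 ≤ T) (hτ : Real.pi * |τ| ≤ T) :
    J (3 * T) (fun z => SS2 a (dir τ * (z / T))) = cmean2 a τ T := by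
  have hT0 : (0 : ℝ) < T := by linarith
  have hre : ∀ z ∈ HS (3 * T), 2 ≤ (dir τ * (z / T)).re := by
    intro z hz
    have e1 : (z / T).re = z.re / T := by simp
    have e2 : (z / T).im = z.im / T := by simp
    rw [dir_mul_re, e1, e2]
    have h1 : 3 ≤ z.re / T := by
      rw [le_div_iff₀ hT0]
      exact hz.1
    have h2 : τ * (z.im / T) ≤ 1 := by
      rw [mul_div_assoc', div_le_one hT0]
      have h3 : τ * z.im ≤ |τ| * |z.im| := by rw [← abs_mul]; exact le_abs_self _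
      have h4 : |τ| * |z.im| ≤ |τ| * Real.pi := mul_le_mul_of_nonneg_left hz.2 (abs_nonneg _)
      linarith
    linarith
  have hb : ∀ (v : HeightOneSpectrum (𝓞 K)), ∀ z ∈ HS (3 * T),
      ‖st2 a v (dir τ * (z / T))‖ ≤ 5 * N * (nm v : ℝ) ^ (-(3 / 2) : ℝ) :=
    fun v z hz => norm_st2_one h v (by linarith [hre z hz])
  have hnn : ∀ v : HeightOneSpectrum (𝓞 K), 0 ≤ 5 * N * (nm v : ℝ) ^ (-(3 / 2) : ℝ) :=
    fun v => mul_nonneg (by positivity) (Real.rpow_nonneg (nm_pos v).le _)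
  have h1 := J_hasSum (a := 3 * T) (by positivity)
    (F := fun (v : HeightOneSpectrum (𝓞 K)) z => st2 a v (dir τ * (z / T)))
    ((summable_nm (K := K) (σ := 3 / 2) (by norm_num)).mul_left (5 * (N : ℝ)))
    (fun v => ⟨by unfold st2 yv; fun_prop, 5 * N * (nm v : ℝ) ^ (-(3 / 2) : ℝ), 0,
      hnn v, le_rfl,
      fun z hz => by
        have := hb v z hz
        simpa using this⟩) hb
  have h2 : ∀ v : HeightOneSpectrum (𝓞 K), J (3 * T) (fun z => st2 a v (dir τ * (z / T))) =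
      cv a v * wgt τ T v - p2 a v / 2 * (wgt2 τ T v - wgt τ T v) := by
    intro v
    have e3 : (fun z : ℂ => st2 a v (dir τ * (z / T))) =
        fun z => (cv a v + p2 a v / 2) * Complex.exp (-(z * (dir τ * (Real.log (nm v) / T)))) -
          p2 a v / 2 * Complex.exp (-(z * (dir τ * (2 * (Real.log (nm v) / T))))) := by
      funext z
      unfold st2
      have e4 : yv v (dir τ * (z / T)) = Complex.exp (-(z * (dir τ * (Real.log (nm v) / T)))) := by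
        unfold yv
        congr 1
        ring
      have e5 : yv v (dir τ * (z / T)) ^ 2 =
          Complex.exp (-(z * (dir τ * (2 * (Real.log (nm v) / T))))) := by
        rw [e4, ← Complex.exp_nat_mul]
        congr 1
        push_cast
        ring
      rw [e5, e4]
      ring
    have hadm : ∀ (c u : ℂ), (∀ z ∈ HS (3 * T), ‖Complex.exp (-(z * u))‖ ≤ 1) →
        Adm (3 * T) (fun z => c * Complex.exp (-(z * u))) := by
      intro c u hu
      refine ⟨by fun_prop, ‖c‖, 0, norm_nonneg _, le_rfl, fun z hz => ?_⟩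
      rw [norm_mul, zero_mul, add_zero]
      exact mul_le_of_le_one_right (norm_nonneg _) (hu z hz)
    have hL := log_nm_nonneg v
    have hu1 : ∀ z ∈ HS (3 * T), ‖Complex.exp (-(z * (dir τ * (Real.log (nm v) / T))))‖ ≤ 1 := by
      intro z hz
      rw [Complex.norm_exp, Real.exp_le_one_iff]
      have e6 : (-(z * (dir τ * (Real.log (nm v) / T)))) =
          -((dir τ * (z / T)) * (Real.log (nm v) : ℂ)) := by ring
      rw [e6, Complex.neg_re, Complex.re_mul_ofReal]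
      have := mul_nonneg (by linarith [hre z hz] : 0 ≤ (dir τ * (z / T)).re) hL
      linarith
    have hu2 : ∀ z ∈ HS (3 * T),
        ‖Complex.exp (-(z * (dir τ * (2 * (Real.log (nm v) / T)))))‖ ≤ 1 := by
      intro z hz
      rw [Complex.norm_exp, Real.exp_le_one_iff]
      have e6 : (-(z * (dir τ * (2 * (Real.log (nm v) / T))))) =
          -((dir τ * (z / T)) * ((2 * Real.log (nm v) : ℝ) : ℂ)) := by push_cast; ring
      rw [e6, Complex.neg_re, Complex.re_mul_ofReal]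
      have := mul_nonneg (by linarith [hre z hz] : 0 ≤ (dir τ * (z / T)).re)
        (mul_nonneg zero_le_two hL)
      linarith
    rw [e3, J_sub (by positivity) (hadm _ _ hu1) (hadm _ _ hu2), J_const_mul, J_const_mul, J_cexp,
      J_cexp]
    unfold wgt wgt2
    ring
  simp only [h2] at h1
  exact h1.tsum_eq.symm

lemma wgt2_le (τ : ℝ) {T : ℝ} (hT : 0 < T) (v : HeightOneSpectrum (𝓞 K)) :
    ‖wgt2 τ T v‖ ≤ (Real.exp (Real.exp (2 * T + Real.pi * |τ|)) + 1) * (nm v : ℝ) ^ (-2 : ℝ) := by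
  have hv : 0 ≤ Real.log (nm v) / T := div_nonneg (log_nm_nonneg v) hT.le
  have hv2 : 0 ≤ 2 * (Real.log (nm v) / T) := by positivity
  have h2 := inv_gamma_le τ (c := 2 * T + Real.pi * |τ|) (by positivity) hv2
  have h3 : Real.exp (-((2 * T + Real.pi * |τ| - Real.pi * |τ|) * (2 * (Real.log (nm v) / T)))) ≤
      (nm v : ℝ) ^ (-2 : ℝ) := by
    rw [Real.rpow_def_of_pos (nm_pos v)]
    apply Real.exp_le_exp.2
    have e1 : -((2 * T + Real.pi * |τ| - Real.pi * |τ|) * (2 * (Real.log (nm v) / T))) =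
        -(4 * Real.log (nm v)) := by
      field_simp
      ring
    rw [e1]
    have := log_nm_nonneg v
    linarith
  unfold wgt2
  have e2 : (2 * ((Real.log (nm v) : ℝ) / (T : ℂ)) : ℂ) = ((2 * (Real.log (nm v) / T) : ℝ) : ℂ) := by
    push_cast; ring
  rw [e2]
  exact h2.trans (mul_le_mul_of_nonneg_left h3 (by positivity))

theorem cmean2_summable (h : Cen a) (τ : ℝ) {T : ℝ} (hT : 0 < T) :
    Summable fun v : HeightOneSpectrum (𝓞 K) =>
      ‖cv a v * wgt τ T v - p2 a v / 2 * (wgt2 τ T v - wgt τ T v)‖ := by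
  set E : ℝ := Real.exp (Real.exp (2 * T + Real.pi * |τ|)) + 1 with hE
  have hE0 : 0 ≤ E := by positivity
  refine Summable.of_nonneg_of_le (fun v => norm_nonneg _) (fun v => ?_)
    ((cmean_summable h τ hT).add ((summable_nm (K := K) (σ := 2) (by norm_num)).mul_left (N * E)))
  refine (norm_sub_le _ _).trans (add_le_add le_rfl ?_)
  have h1 := norm_p2 h v
  have h2 : (nm v : ℝ) ^ (-1 : ℝ) ≤ 1 :=
    Real.rpow_le_one_of_one_le_of_nonpos (one_le v) (by norm_num)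
  have h3 : ‖p2 a v‖ ≤ N := h1.trans (mul_le_of_le_one_right (by positivity) h2)
  have h4 := wgt_le τ hT v
  have h5 := wgt2_le τ hT v
  have h6 : ‖wgt2 τ T v - wgt τ T v‖ ≤ 2 * (E * (nm v : ℝ) ^ (-2 : ℝ)) := by
    refine (norm_sub_le _ _).trans ?_
    linarith
  rw [norm_mul, norm_div]
  have e2 : ‖(2 : ℂ)‖ = 2 := by norm_num
  rw [e2]
  calc ‖p2 a v‖ / 2 * ‖wgt2 τ T v - wgt τ T v‖ ≤ (N : ℝ) / 2 * (2 * (E * (nm v : ℝ) ^ (-2 : ℝ))) := by
        gcongr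
    _ = _ := by ring

end Run7.h946.LL
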