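import Pool.Agent.Run7.h946.LL.Fin

/-!
# The leading coefficient from the rotated means: the equivalences
-/

set_option autoImplicit false

namespace Run7.h946.LL

open NumberField IsDedekindDomain Filter Topology MeasureTheory Asymptotics
open Pool.Agent.TH339.MP (nm two_le_nm)
open Pool.Agent.R409.RA
open Pool.Agent.R409.EV (LProd)
open Pool.Agent.W524.RY (dir dir_re dir_im dir_ne dir_mul_re dir_mul_real_re main_abs)
open Pool.Agent.W189.ML (grow J exp_gap grow_ge grow_zero)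
open Pool.Agent.W189.LC (kap J_log_eq)

/-! ### Functions of one variable -/

/-- from the logarithm to the function -/
theorem exp_asymp {f : ℝ → ℂ} {m : ℤ} {l : ℂ} {C T₀ : ℝ} (hC0 : 0 ≤ C)
    (h : ∀ T : ℝ, T₀ ≤ T → ‖f T - (m * (Real.log T - kap) - l)‖ ≤ C / T) :
    (fun T : ℝ => Complex.exp (f T) / (T : ℂ) ^ m - Complex.exp (-(m * kap) - l)) =O[atTop]
      (fun T : ℝ => 1 / T) := by
  refine IsBigO.of_bound (‖Complex.exp (-(m * kap) - l)‖ * (2 * C)) ?_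
  filter_upwards [eventually_ge_atTop T₀, eventually_gt_atTop 0, eventually_ge_atTop C]
    with T h1 h2 h3
  set e : ℂ := f T - (m * (Real.log T - kap) - l) with he
  have h4 : ‖e‖ ≤ C / T := h T h1
  have h5 : ‖e‖ ≤ 1 := h4.trans ((div_le_one h2).2 h3)
  have hTc : (T : ℂ) ≠ 0 := by exact_mod_cast h2.ne'
  have h6 : (T : ℂ) ^ m = Complex.exp (m * Real.log T) := by
    rw [Complex.exp_int_mul, ← Complex.ofReal_exp, Real.exp_log h2]
  have h7 : Complex.exp (f T) / (T : ℂ) ^ m - Complex.exp (-(m * kap) - l) =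
      Complex.exp (-(m * kap) - l) * (Complex.exp e - 1) := by
    rw [h6, ← Complex.exp_sub, mul_sub, mul_one, ← Complex.exp_add]
    congr 2
    rw [he]
    ring
  rw [h7, norm_mul, mul_assoc]
  refine mul_le_mul_of_nonneg_left ?_ (norm_nonneg _)
  have h8 := Complex.norm_exp_sub_one_le h5
  rw [Real.norm_of_nonneg (by positivity : (0 : ℝ) ≤ 1 / T)]
  calc ‖Complex.exp e - 1‖ ≤ 2 * ‖e‖ := h8
    _ ≤ 2 * (C / T) := by gcongr
    _ = 2 * C * (1 / T) := by ring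

lemma inv_tendsto : Tendsto (fun T : ℝ => 1 / T) atTop (𝓝 0) := by
  simpa using tendsto_inv_atTop_zero (𝕜 := ℝ)

theorem exp_tendsto {g : ℝ → ℂ} {A : ℂ}
    (h : (fun T : ℝ => g T - A) =O[atTop] (fun T : ℝ => 1 / T)) :
    Tendsto g atTop (𝓝 A) := by
  have h1 := h.trans_tendsto inv_tendsto
  have h2 := h1.add_const A
  simpa using h2

/-- the real part of the logarithm -/
lemma re_tendsto {f : ℝ → ℂ} {ρ : ℤ} {B : ℝ} (hB : 0 < B) {T : ℕ → ℝ} (hT : Tendsto T atTop atTop)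
    (h : Tendsto (fun n => Real.exp (f (T n)).re / (T n) ^ ρ) atTop (𝓝 B)) :
    Tendsto (fun n => (f (T n)).re - ρ * Real.log (T n)) atTop (𝓝 (Real.log B)) := by
  have h1 := (Real.continuousAt_log hB.ne').tendsto.comp h
  refine h1.congr' ?_
  filter_upwards [hT.eventually_gt_atTop 0] with n hn
  simp only [Function.comp]
  rw [Real.log_div (Real.exp_pos _).ne' (zpow_pos hn _).ne', Real.log_exp, Real.log_zpow]

/-- two exponents -/
lemma exp_unique {m ρ : ℤ} {A B : ℝ} {u : ℕ → ℝ} {T : ℕ → ℝ} (hT : Tendsto T atTop atTop)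
    (h1 : Tendsto (fun n => u n - m * Real.log (T n)) atTop (𝓝 A))
    (h2 : Tendsto (fun n => u n - ρ * Real.log (T n)) atTop (𝓝 B)) : m = ρ := by
  by_contra hne
  have h3 := h2.sub h1
  have h4 : Tendsto (fun n => ((m : ℝ) - ρ) * Real.log (T n)) atTop (𝓝 (B - A)) := by
    refine h3.congr fun n => ?_
    ring
  have h5 : ((m : ℝ) - ρ) ≠ 0 := sub_ne_zero.2 (by exact_mod_cast hne)
  have h6 := h4.const_mul ((m : ℝ) - ρ)⁻¹
  have h7 : Tendsto (fun n => Real.log (T n)) atTop (𝓝 (((m : ℝ) - ρ)⁻¹ * (B - A))) := by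
    refine h6.congr fun n => ?_
    rw [← mul_assoc, inv_mul_cancel₀ h5, one_mul]
  exact not_tendsto_nhds_of_tendsto_atTop (Real.tendsto_log_atTop.comp hT) _ h7

/-- blocked directions have no limits -/
lemma no_lim {f : ℝ → ℂ} {m ρ : ℤ} (hm : m ≠ 0) {B : ℝ} {T : ℕ → ℝ} (hT : Tendsto T atTop atTop)
    (hbig : ∀ᶠ T : ℝ in atTop, Real.exp T ≤ (Int.sign m : ℝ) * (f T).re)
    (h : Tendsto (fun n => (f (T n)).re - ρ * Real.log (T n)) atTop (𝓝 B)) : False := by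
  have h1 : ∀ᶠ n in atTop, |(f (T n)).re - ρ * Real.log (T n)| ≤ |B| + 1 := by
    have h2 := h.abs
    exact h2.eventually (eventually_le_nhds (by linarith))
  -- `exp T - |ρ| T` is large
  have h3 : ∀ᶠ x : ℝ in atTop, |B| + 2 + |(ρ : ℝ)| * x ≤ Real.exp x := by
    have h4 : Tendsto (fun x : ℝ => Real.exp x / x ^ 1) atTop atTop :=
      Real.tendsto_exp_div_pow_atTop 1
    filter_upwards [h4.eventually_ge_atTop (|B| + 2 + |(ρ : ℝ)|), eventually_ge_atTop 1]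
      with x h5 h6
    rw [pow_one, le_div_iff₀ (by linarith)] at h5
    have h7 : |B| + 2 ≤ (|B| + 2) * x := le_mul_of_one_le_right (by positivity) h6
    linarith
  have hs : |(Int.sign m : ℝ)| ≤ 1 := by
    rcases lt_or_gt_of_ne hm with h15 | h15
    · rw [Int.sign_eq_neg_one_of_neg h15]
      simp
    · rw [Int.sign_eq_one_of_pos h15]
      simp
  obtain ⟨n, h5, h6, h7, h8⟩ := (h1.and ((hT.eventually hbig).and ((hT.eventually h3).and
    (hT.eventually_ge_atTop 1)))).exists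
  set x := T n with hx
  have h9 : Real.exp x ≤ |(f x).re| := by
    calc Real.exp x ≤ (Int.sign m : ℝ) * (f x).re := h6
      _ ≤ |(Int.sign m : ℝ) * (f x).re| := le_abs_self _
      _ = |(Int.sign m : ℝ)| * |(f x).re| := abs_mul _ _
      _ ≤ 1 * |(f x).re| := mul_le_mul_of_nonneg_right hs (abs_nonneg _)
      _ = _ := one_mul _
  have hlog0 : 0 ≤ Real.log x := Real.log_nonneg h8
  have hlog : Real.log x ≤ x := (Real.log_le_sub_one_of_pos (by linarith)).trans (by linarith)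
  have h10 : |(ρ : ℝ) * Real.log x| ≤ |(ρ : ℝ)| * x := by
    rw [abs_mul, abs_of_nonneg hlog0]
    gcongr
  have h11 : |(f x).re| ≤ |(f x).re - ρ * Real.log x| + |(ρ : ℝ) * Real.log x| := by
    have := abs_add_le ((f x).re - ρ * Real.log x) ((ρ : ℝ) * Real.log x)
    simpa using this
  linarith

/-! ### Leading coefficients -/

/-- the order of `F` at `c` is `ρ` and the leading coefficient is `B` -/
def Lead (F : ℂ → ℂ) (c : ℂ) (ρ : ℤ) (B : ℂ) : Prop :=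
  B ≠ 0 ∧ Tendsto (fun s => (s - c) ^ (-ρ) * F s) (𝓝[≠] c) (𝓝 B)

lemma exists_lead {F : ℂ → ℂ} {c : ℂ} {r : ℤ} (h : MeromorphicAt F c)
    (hr : meromorphicOrderAt F c = r) : ∃ B : ℂ, Lead F c r B := by
  obtain ⟨g, hg, hg0, he⟩ := (meromorphicOrderAt_eq_int_iff h).1 hr
  refine ⟨g c, hg0, ?_⟩
  refine (hg.continuousAt.tendsto.mono_left nhdsWithin_le_nhds).congr' ?_
  filter_upwards [he, self_mem_nhdsWithin] with s hs hs2
  rw [hs, smul_eq_mul, ← mul_assoc, ← zpow_add₀ (sub_ne_zero.2 hs2), neg_add_cancel, zpow_zero,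
    one_mul]

lemma Lead.order {F : ℂ → ℂ} {c : ℂ} {ρ : ℤ} {B : ℂ} (hF : MeromorphicAt F c)
    (h : Lead F c ρ B) : meromorphicOrderAt F c = ρ := by
  obtain ⟨hB, hl⟩ := h
  have h1 : MeromorphicAt (fun s : ℂ => (s - c) ^ (-ρ)) c := MeromorphicAt.fun_zpow (by fun_prop) _
  have h2 : meromorphicOrderAt (fun s : ℂ => (s - c) ^ (-ρ)) c = ((-ρ : ℤ) : WithTop ℤ) :=
    (meromorphicOrderAt_eq_int_iff h1).2 ⟨fun _ => 1, analyticAt_const, one_ne_zero,
      Eventually.of_forall fun s => by simp⟩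
  have h3 : meromorphicOrderAt (fun s : ℂ => (s - c) ^ (-ρ) * F s) c = 0 :=
    (tendsto_ne_zero_iff_meromorphicOrderAt_eq_zero (h1.fun_mul hF)).1 ⟨B, hB, hl⟩
  have h4 : meromorphicOrderAt (fun s : ℂ => (s - c) ^ (-ρ) * F s) c =
      meromorphicOrderAt (fun s : ℂ => (s - c) ^ (-ρ)) c + meromorphicOrderAt F c :=
    meromorphicOrderAt_mul h1 hF
  rw [h4, h2] at h3
  rcases h5 : meromorphicOrderAt F c with _ | n
  · rw [h5] at h3
    have h6 : (((-ρ : ℤ) : WithTop ℤ) + ⊤) = 0 := h3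
    rw [WithTop.add_top] at h6
    exact absurd h6 (by simp)
  · rw [h5] at h3
    have h6 : ((-ρ + n : ℤ) : WithTop ℤ) = ((0 : ℤ) : WithTop ℤ) := h3
    have h7 : -ρ + n = 0 := by exact_mod_cast h6
    have h8 : n = ρ := by omega
    rw [h8]
    rfl

lemma Lead.unique {F : ℂ → ℂ} {c : ℂ} {ρ : ℤ} {B B' : ℂ} (h : Lead F c ρ B) (h' : Lead F c ρ B') :
    B = B' := tendsto_nhds_unique h.2 h'.2

variable {K : Type} [Field K] [NumberField K] {N i : ℕ}
  {α : HeightOneSpectrum (𝓞 K) → Fin N → ℂ} {F : ℂ → ℂ}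

/-- the constant of the asymptotic formula -/
noncomputable def cst (τ : ℝ) (ρ : ℤ) (B : ℂ) : ℂ := Complex.exp (-(ρ * kap)) / (dir τ ^ ρ * B)

lemma cst_ne (τ : ℝ) (ρ : ℤ) {B : ℂ} (hB : B ≠ 0) : cst τ ρ B ≠ 0 :=
  div_ne_zero (Complex.exp_ne_zero _) (mul_ne_zero (zpow_ne_zero _ (dir_ne τ)) hB)

lemma cst_inj {τ : ℝ} {ρ : ℤ} {B B' : ℂ} (hB : B ≠ 0) (hB' : B' ≠ 0)
    (h : cst τ ρ B = cst τ ρ B') : B = B' := by
  unfold cst at h
  have h1 := zpow_ne_zero ρ (dir_ne τ)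
  rw [div_eq_div_iff (mul_ne_zero h1 hB) (mul_ne_zero h1 hB')] at h
  have h2 := mul_left_cancel₀ (Complex.exp_ne_zero _) h
  exact (mul_left_cancel₀ h1 h2).symm

/-- **Free directions.** -/
theorem free2 (h : Cont i α F) (τ : ℝ) {m : ℤ} {B : ℂ} (hB : Lead F (((i : ℂ) + 1) / 2) m B)
    (hnz : ∀ x : ℝ, 0 < x → meromorphicOrderAt F (rp i τ x) = 0) :
    (fun T : ℝ => Complex.exp (cmean2 (ca i α) τ T) / (T : ℂ) ^ m - cst τ m B) =O[atTop]
      (fun T : ℝ => 1 / T) := by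
  have hcen : ((i : ℝ) + 1) / 2 ≤ (((i : ℂ) + 1) / 2).re := (re_half i).ge
  have hm : meromorphicOrderAt F (rp i τ 0) = m := by
    rw [rp_zero]
    exact hB.order (h.mer _ hcen)
  obtain ⟨x₁, hx1, hx2, -, Q, hQ, hQ0, hΦ, hQF⟩ := exists_Q h τ le_rfl zero_le_one hm hnz
  have hx10 : x₁ = 0 := le_antisymm hx2 hx1
  subst hx10
  simp only [Complex.ofReal_zero, sub_zero] at hΦ hQF
  obtain ⟨l, hl, C, T₀, hC0, hT0, hC⟩ := cmean2_prec h.temp τ m hQ hQ0 hΦ
  have hQ1 : Q 0 = dir τ ^ m * B := by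
    have h1 : Tendsto Q (𝓝[≠] 0) (𝓝 (Q 0)) := by
      have h2 := (hQ 0 ⟨le_rfl, by norm_num⟩).continuousAt
      rw [Complex.ofReal_zero] at h2
      exact h2.tendsto.mono_left nhdsWithin_le_nhds
    have h3 : Tendsto (fun w : ℂ => ((i : ℂ) + 1) / 2 + dir τ * w) (𝓝[≠] 0)
        (𝓝[≠] (((i : ℂ) + 1) / 2)) := by
      refine tendsto_nhdsWithin_of_tendsto_nhds_of_eventually_within _ ?_ ?_
      · have h4 : ContinuousAt (fun w : ℂ => ((i : ℂ) + 1) / 2 + dir τ * w) 0 := by fun_prop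
        have h5 := h4.tendsto
        simp only [mul_zero, add_zero] at h5
        exact h5.mono_left nhdsWithin_le_nhds
      · filter_upwards [self_mem_nhdsWithin] with w hw hw2
        have h6 : dir τ * w = 0 := by
          have : ((i : ℂ) + 1) / 2 + dir τ * w = ((i : ℂ) + 1) / 2 := hw2
          exact add_eq_left.1 this
        exact hw ((mul_eq_zero.1 h6).resolve_left (dir_ne τ))
    have h4 := (hB.2.comp h3).const_mul (dir τ ^ m)
    refine tendsto_nhds_unique h1 (h4.congr' ?_)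
    filter_upwards [hQF, self_mem_nhdsWithin] with w hw hw2
    have hw0 : w ≠ 0 := hw2
    rw [hw]
    simp only [Function.comp]
    rw [add_sub_cancel_left, mul_zpow, ← mul_assoc, ← mul_assoc, ← zpow_add₀ (dir_ne τ),
      add_neg_cancel, zpow_zero, one_mul]
  have h1 := exp_asymp hC0 hC
  have h2 : Complex.exp (-(m * kap) - l) = cst τ m B := by
    unfold cst
    rw [Complex.exp_sub, hl, hQ1]
  rwa [h2] at h1

/-- **Blocked directions.** -/
theorem blocked2 (h : Cont i α F) (τ : ℝ)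
    (hτ : ¬ ∀ x : ℝ, 0 < x → meromorphicOrderAt F (rp i τ x) = 0) :
    ∃ m : ℤ, m ≠ 0 ∧ ∀ᶠ T : ℝ in atTop,
      Real.exp T ≤ (Int.sign m : ℝ) * (cmean2 (ca i α) τ T).re := by
  push Not at hτ
  obtain ⟨y, hy, hyz⟩ := hτ
  obtain ⟨x₀, h0, h01, hnz, hz⟩ := h.exists_last τ
  have hx0 : 0 < x₀ := by
    by_contra hcon
    exact hyz (hnz y (by linarith))
  have hz' : meromorphicOrderAt F (rp i τ x₀) ≠ 0 := by
    rcases hz with h2 | h2
    · exact absurd h2 hx0.ne'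
    · exact h2
  obtain ⟨m, hm⟩ := WithTop.ne_top_iff_exists.1 (h.ne_top (s := rp i τ x₀) (by
    rw [rp_re]
    linarith))
  have hm0 : m ≠ 0 := by
    rintro rfl
    exact hz' (by rw [← hm]; rfl)
  obtain ⟨x₁, hx1, hx2, hx3, Q, hQ, hQ0, hΦ, -⟩ := exists_Q h τ hx0.le h01 hm.symm hnz
  obtain ⟨C, T₀, hC0, hT0, hC⟩ := cmean2_abs h.temp τ hx1 hx2 h01 m hQ hQ0 hΦ
  exact ⟨m, hm0, blocked_big hx0 hm0 hx1 (hx3 hx0) hC0
    ((eventually_ge_atTop T₀).mono fun T hT => hC T hT)⟩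

/-- there is a free direction -/
theorem exists_free (h : Cont i α F) :
    ∃ τ : ℝ, ∀ x : ℝ, 0 < x → meromorphicOrderAt F (rp i τ x) = 0 := by
  by_contra hcon
  push Not at hcon
  have h1 := h.blocked_finite 1
  have h2 : {τ : ℝ | |τ| ≤ 1 ∧ ∃ x : ℝ, 0 < x ∧ meromorphicOrderAt F (rp i τ x) ≠ 0} =
      Set.Icc (-1) 1 := by
    ext τ
    simp only [Set.mem_ofPred_eq, Set.mem_Icc, ← abs_le]
    exact ⟨fun h => h.1, fun h => ⟨h, hcon τ⟩⟩
  rw [h2] at h1
  exact (Set.Icc_infinite (by norm_num : (-1 : ℝ) < 1)) h1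

lemma norm_quot (z : ℂ) {T : ℝ} (hT : 0 < T) (ρ : ℤ) :
    ‖Complex.exp z / (T : ℂ) ^ ρ‖ = Real.exp z.re / T ^ ρ := by
  rw [norm_div, Complex.norm_exp, norm_zpow, Complex.norm_real, Real.norm_of_nonneg hT.le]

/-- one direction and one sequence, absolute values -/
theorem pin (h : Cont i α F) {τ : ℝ} {ρ : ℤ} {b : ℝ} (hb : 0 < b) {T : ℕ → ℝ}
    (hT : Tendsto T atTop atTop)
    (hlim : Tendsto (fun n => Real.exp (cmean2 (ca i α) τ (T n)).re / (T n) ^ ρ) atTop (𝓝 b)) :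
    (∀ x : ℝ, 0 < x → meromorphicOrderAt F (rp i τ x) = 0) ∧
      ∃ B : ℂ, Lead F (((i : ℂ) + 1) / 2) ρ B ∧ ‖cst τ ρ B‖ = b := by
  have h1 := re_tendsto (f := fun T => cmean2 (ca i α) τ T) hb hT hlim
  by_cases hτ : ∀ x : ℝ, 0 < x → meromorphicOrderAt F (rp i τ x) = 0
  · refine ⟨hτ, ?_⟩
    have hcen : ((i : ℝ) + 1) / 2 ≤ (((i : ℂ) + 1) / 2).re := (re_half i).ge
    obtain ⟨r, hr⟩ := WithTop.ne_top_iff_exists.1 (h.ne_top hcen)
    obtain ⟨B, hB⟩ := exists_lead (h.mer _ hcen) hr.symm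
    have h2 := free2 h τ hB hτ
    have h3 := (exp_tendsto h2).comp hT
    have h4 : Tendsto (fun n => Real.exp (cmean2 (ca i α) τ (T n)).re / (T n) ^ r) atTop
        (𝓝 ‖cst τ r B‖) := by
      refine h3.norm.congr' ?_
      filter_upwards [hT.eventually_gt_atTop 0] with n hn
      exact norm_quot _ hn r
    have h5 := re_tendsto (f := fun T => cmean2 (ca i α) τ T)
      (norm_pos_iff.2 (cst_ne τ r hB.1)) hT h4
    have h6 : r = ρ := exp_unique hT h5 h1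
    subst h6
    exact ⟨B, hB, tendsto_nhds_unique h4 hlim⟩
  · exfalso
    obtain ⟨m, hm0, hbig⟩ := blocked2 h τ hτ
    exact no_lim hm0 hT hbig h1

/-- **The equivalences.** -/
theorem equiv (h : Cont i α F) (ρ : ℤ) {B : ℂ} (hB : B ≠ 0) :
    List.TFAE [
      Lead F (((i : ℂ) + 1) / 2) ρ B,
      ∃ (τ : ℝ) (T : ℕ → ℝ), Tendsto T atTop atTop ∧
        Tendsto (fun n => Complex.exp (cmean2 (ca i α) τ (T n)) / ((T n : ℝ) : ℂ) ^ ρ) atTop
          (𝓝 (cst τ ρ B)),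
      ∀ τ : ℝ, (∀ x : ℝ, 0 < x → meromorphicOrderAt F (rp i τ x) = 0) →
        (fun T : ℝ => Complex.exp (cmean2 (ca i α) τ T) / (T : ℂ) ^ ρ - cst τ ρ B) =O[atTop]
          (fun T : ℝ => 1 / T)] := by
  tfae_have 1 → 3 := fun h1 τ hτ => free2 h τ h1 hτ
  tfae_have 3 → 2 := by
    intro h1
    obtain ⟨τ, hτ⟩ := exists_free h
    exact ⟨τ, fun n => n, tendsto_natCast_atTop_atTop,
      (exp_tendsto (h1 τ hτ)).comp tendsto_natCast_atTop_atTop⟩
  tfae_have 2 → 1 := by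
    rintro ⟨τ, T, hT, h1⟩
    have hc := cst_ne τ ρ hB
    obtain ⟨hfree, B', hB', -⟩ := pin h (norm_pos_iff.2 hc) hT (by
      refine h1.norm.congr' ?_
      filter_upwards [hT.eventually_gt_atTop 0] with n hn
      exact norm_quot _ hn ρ)
    have h2 := (exp_tendsto (free2 h τ hB' hfree)).comp hT
    have h3 : cst τ ρ B = cst τ ρ B' := tendsto_nhds_unique h1 h2
    rw [cst_inj hB hB'.1 h3]
    exact hB'
  tfae_finish

end Run7.h946.LL
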